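import Pool.Agent.Helper79.GC.MainB2

/-!
# MP_290158_ag: period relations in the families `y² = g(x) (x - t)`

Definitions are in `Pool.Agent.Helper64.Per.Defs` (`Qbar`, `BFibre`, `ZClosure`, `HasRelation`),
`Pool.Agent.Helper79.GC.HypPer` (`LoopData`) and `Pool.Agent.Helper79.GC.MainB` (`IsPeriodMatrix`).
-/

open Polynomial Pool.Agent.Helper79.GC Pool.Agent.Helper64.Per

namespace Pool.Agent.Results.MP_290158_ag.HyperellipticInts

/-- Let `g ∈ ℚ[x]` have degree `2 h`, `h ≥ 1`, and let `P` be a matrix of periods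
`∫ x^i dx / y`, `0 ≤ i < 2 h`, of the curves `y² = g(x) (x - t)` over closed loops which are locally
constant in `t`, on a connected open set `U` which contains all real `t` with `|t| > t₀`, with
`det P(t) ≠ 0` on `U`. For every `δ` there are `B`, `C` and `0 < θ < 1` such that for every `n ≥ 1`
there are at most `B` integers `i ∈ U` with `n ≤ |i| ≤ n + n^θ` at which `P` has a relation of degree
at most `δ` over `ℚ`, and there are at most `C X^(1-θ)` such `i` with `|i| ≤ X`. -/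
theorem result {g : ℚ[X]} {h : ℕ} (hh : 1 ≤ h) (hg : g.natDegree = 2 * h) {U : Set ℂ}
    (hU : IsOpen U) (hU' : IsPreconnected U) {t₀ : ℝ} (ht : ∀ t : ℝ, t₀ < |t| → (t : ℂ) ∈ U)
    {P : ℂ → Matrix (Fin (2 * h)) (Fin (2 * h)) ℂ} (hP : IsPeriodMatrix g (2 * h) U P)
    (hdet : ∀ t ∈ U, IsUnit (P t).det) (δ : ℕ) :
    ∃ (B : ℕ) (θ C : ℝ), 0 < θ ∧ θ < 1 ∧
      (∀ n : ℕ, 1 ≤ n → Set.ncard {i : ℤ | (n : ℝ) ≤ |(i : ℝ)| ∧
        |(i : ℝ)| ≤ n + (n : ℝ) ^ θ ∧ ((i : ℂ) ∈ U ∧ HasRelation U P (i : ℂ) ⊥ δ)} ≤ B) ∧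
      ∀ X : ℕ, 1 ≤ X → (Set.ncard {i : ℤ | |(i : ℝ)| ≤ X ∧
        ((i : ℂ) ∈ U ∧ HasRelation U P (i : ℂ) ⊥ δ)} : ℝ) ≤ C * (X : ℝ) ^ (1 - θ) :=
  mainB2 hh hg hU hU' ht hP hdet δ

end Pool.Agent.Results.MP_290158_ag.HyperellipticInts
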