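import Pool.Agent.Helper37.GP.Finals

/-!
# MP_290158_ag: exceptional points of the Legendre family in short intervals

Family: `y² = x (x - 1) (x - t)`, `j = 1`. Definitions are in `Pool.Agent.Helper64.Per.Defs`
(`Qbar`, `BFibre`, `ZClosure`, `HasRelation`), `Pool.Agent.Helper37.GP.Defs2` (`UU`),
`Pool.Agent.Helper37.GP.Defs3` (`PP`, `Exceptional`) and `Pool.Agent.Helper37.GP.Defs5` (`Exc`).
The theorem `Pool.Agent.Helper37.GP.PP_real` (file `Pool/Agent/Helper95/GP/Per.lean`) checks that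
for real `t` the entries of `PP` are the usual periods.
-/

open Pool.Agent.Helper37.GP

namespace Pool.Agent.Results.MP_290158_ag.ShortIntervals

/-- Let `0 < s₀ < 1` and `c ≠ 0` be rational. Call `n ≥ 1` exceptional if `s₀ + c / n` lies in
`(0, 1)` and carries a relation of degree at most `δ` over some number field of degree at most
`m`. There is `C₁`, depending only on `s₀` and `c`, such that for all `m`, `δ` there is `θ > 0`
for which every interval `[n, n + n^θ]`, `n ≥ 1`, contains at most `binom(δ + 4, 4) C₁`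
exceptional integers; in particular there are `O(T^(1 - θ))` of them up to `T`. -/
theorem result {s₀ c : ℚ} (h0 : 0 < s₀) (h1 : s₀ < 1) (hc : c ≠ 0) :
    ∃ C₁ : ℕ, ∀ m δ : ℕ, ∃ θ C : ℝ, 0 < θ ∧
      (∀ n : ℕ, 1 ≤ n → Set.ncard {i : ℕ | n ≤ i ∧ (i : ℝ) ≤ n + (n : ℝ) ^ θ ∧
        i ∈ Exc s₀ c m δ} ≤ (δ + 4).choose 4 * C₁) ∧
      ∀ T : ℕ, 1 ≤ T →
        (Set.ncard {n : ℕ | n ≤ T ∧ n ∈ Exc s₀ c m δ} : ℝ) ≤ C * (T : ℝ) ^ (1 - θ) :=
  short_intervals h0 h1 hc

end Pool.Agent.Results.MP_290158_ag.ShortIntervals
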