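import Pool.Agent.Helper79.SE.MainC

/-!
# MP_290158_ag: period relations of bounded degree in superelliptic families

Definitions are in `Pool.Agent.Helper79.SE.Stat` (`IsPeriodSE`), `Pool.Agent.Helper79.SE.Per` (`evl`,
`LoopSE`, `perSE`) and `Pool.Agent.Helper64.Per.Defs` (`Qbar`, `ZClosure`, `BFibre`,
`HasRelation`).
-/

open Polynomial Pool.Agent.Helper79.SE Pool.Agent.Helper64.Per

namespace Pool.Agent.Helper79.Old.SuperellipticFamilies

/-- Let `κ` be a number field, `a, d ≥ 2`, let `f ∈ κ[t][x]` be monic of degree `d` in `x`, let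
`s₀, c ∈ κ`, `c ≠ 0`, such that `f(s₀, x)` has no multiple root, and let `U` be a connected open set
with `s₀ ∈ U`. Let `P` be locally on `U` a matrix of periods of all the forms `x^i dx / y^(j+1)`,
`0 ≤ i ≤ d - 2`, `0 ≤ j ≤ a - 2` (they are a basis of the first de Rham cohomology of the affine curve
`y^a = f(x, t)`), over closed loops which are locally constant in `t`, with `det P ≠ 0` on `U` (the loops
are a basis of the homology). For every `δ` there are `B`, `C` and `0 < θ < 1` such that for every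
`n ≥ 1` there are at most `B` integers `i ≠ 0` with `n ≤ |i| ≤ n + n^θ` and `s = s₀ + c / i ∈ U` for
which there is a relation of degree at most `δ` over `κ = κ(s)` at `s`, and there are at most
`C X^(1-θ)` such `i` with `|i| ≤ X`. -/
theorem result {κ : IntermediateField ℚ Qbar} [FiniteDimensional ℚ κ] {a d : ℕ} (ha : 2 ≤ a)
    (hd : 2 ≤ d) {f : Polynomial (Polynomial κ)} (hf : f.Monic) (hfd : f.natDegree = d)
    {s₀ c : κ} (hc : c ≠ 0) (hs : (f.map (Polynomial.evalRingHom s₀)).Separable)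
    {U : Set ℂ} (hU : IsOpen U) (hU' : IsPreconnected U) (hs₀ : ((s₀ : Qbar) : ℂ) ∈ U)
    {P : ℂ → Matrix (Fin (d - 1) × Fin (a - 1)) (Fin (d - 1) × Fin (a - 1)) ℂ}
    (hP : IsPeriodSE a d f U P) (hdet : ∀ t ∈ U, IsUnit (P t).det) (δ : ℕ) :
    ∃ (B : ℕ) (θ C : ℝ), 0 < θ ∧ θ < 1 ∧
      (∀ n : ℕ, 1 ≤ n → Set.ncard {i : ℤ | (n : ℝ) ≤ |(i : ℝ)| ∧
        |(i : ℝ)| ≤ n + (n : ℝ) ^ θ ∧ i ≠ 0 ∧
          ((s₀ : Qbar) : ℂ) + ((c : Qbar) : ℂ) / (i : ℂ) ∈ U ∧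
          HasRelation U P (((s₀ : Qbar) : ℂ) + ((c : Qbar) : ℂ) / (i : ℂ)) κ δ} ≤ B) ∧
      ∀ X : ℕ, 1 ≤ X → (Set.ncard {i : ℤ | |(i : ℝ)| ≤ X ∧ i ≠ 0 ∧
          ((s₀ : Qbar) : ℂ) + ((c : Qbar) : ℂ) / (i : ℂ) ∈ U ∧
          HasRelation U P (((s₀ : Qbar) : ℂ) + ((c : Qbar) : ℂ) / (i : ℂ)) κ δ} : ℝ) ≤
        C * (X : ℝ) ^ (1 - θ) :=
  mainSE ha hd hf hfd hc hs hU hU' hs₀ hP hdet δ

end Pool.Agent.Helper79.Old.SuperellipticFamilies
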